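import Pool.Agent.K6.H16.CX.Gr

set_option autoImplicit false
set_option linter.style.haveILetI false
set_option linter.unusedSectionVars false
set_option linter.unusedVariables false

/-!
# From the Lie algebra to the group
-/

namespace Pool.Agent.K6.H16.CX.As

open Complex Module Pool.Agent.N501.Co Pool.Agent.K6.H16.CX.Gr Pool.Agent.K6.H16.CX.Su
  Pool.Agent.K6.H16.CX.Eq
open scoped ContDiff

variable {W V : Type} [NormedAddCommGroup W] [NormedSpace ℂ W] [FiniteDimensional ℂ W]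
  [NormedAddCommGroup V] [NormedSpace ℝ V] [FiniteDimensional ℝ V]

/-- the exponential of a derivation is an automorphism -/
theorem exp_derivation {N : V →L[ℝ] V} {D : W →L[ℝ] W} {β : W →L[ℝ] W →L[ℝ] V}
    (h : ∀ w w', N (β w w') = β (D w) w' + β w (D w')) (w w' : W) :
    NormedSpace.exp N (β w w') = β (NormedSpace.exp D w) (NormedSpace.exp D w') := by
  haveI : FiniteDimensional ℝ W := FiniteDimensional.complexToReal W
  haveI : CompleteSpace W := FiniteDimensional.complete ℝ W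
  haveI : CompleteSpace V := FiniteDimensional.complete ℝ V
  have hD : ∀ (x : W) (t : ℝ), HasDerivAt (fun t : ℝ => NormedSpace.exp (t • D) x)
      (D (NormedSpace.exp (t • D) x)) t := fun x t =>
    (hasDerivAt_exp_smul_const' (𝕂 := ℝ) D t).clm_apply (hasDerivAt_const t x) |>.congr_deriv (by
      simp)
  have hN : ∀ t : ℝ, HasDerivAt (fun t : ℝ => NormedSpace.exp (t • (-N)))
      (NormedSpace.exp (t • (-N)) * (-N)) t := fun t =>
    hasDerivAt_exp_smul_const (𝕂 := ℝ) (-N) t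
  set φ : ℝ → V := fun t => NormedSpace.exp (t • (-N))
    (β (NormedSpace.exp (t • D) w) (NormedSpace.exp (t • D) w')) with hφ
  have hφ' : ∀ t, HasDerivAt φ 0 t := by
    intro t
    have h1 := (β.hasFDerivAt.comp_hasDerivAt t (hD w t)).clm_apply (hD w' t)
    have h2 := (hN t).clm_apply h1
    refine h2.congr_deriv ?_
    simp only [Function.comp_apply]
    rw [← h]
    change NormedSpace.exp (t • (-N)) ((-N) _) + _ = 0
    rw [neg_apply, map_neg]
    exact neg_add_cancel _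
  have h3 : φ 1 = φ 0 := is_const_of_deriv_eq_zero (fun t => (hφ' t).differentiableAt)
    (fun t => (hφ' t).deriv) 1 0
  simp only [hφ, one_smul, zero_smul, NormedSpace.exp_zero, one_apply_eq_self] at h3
  rw [← h3]
  exact Pool.Agent.N501.In.exp_surj N _

/-- **Associativity** -/
theorem assoc_of {T₁ T₂ : (W × V) →L[ℝ] (W × V)} (hT : Commute T₁ T₂) {D₁ D₂ : W →L[ℂ] W}
    (h₁ : ∀ u, (T₁ u).1 = D₁ u.1) (h₂ : ∀ u, (T₂ u).1 = D₂ u.1) {N₁ N₂ : V →L[ℝ] V}
    (hN₁ : ∀ v, T₁ (0, v) = (0, N₁ v)) (hN₂ : ∀ v, T₂ (0, v) = (0, N₂ v))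
    {β : W →L[ℝ] W →L[ℝ] V}
    (hβ₁ : ∀ w w', N₁ (β w w') = β (D₁ w) w' + β w (D₁ w'))
    (hβ₂ : ∀ w w', N₂ (β w w') = β (D₂ w) w' + β w (D₂ w')) {c : ℝ × ℝ → ℝ × ℝ → V}
    (hc : ∀ a b l, c a b + c (a + b) l =
      NormedSpace.exp (a.1 • N₁ + a.2 • N₂) (c b l) + c a (b + l))
    (g h l : (ℝ × ℝ) × (W × V)) :
    mul T₁ T₂ β c (mul T₁ T₂ β c g h) l = mul T₁ T₂ β c g (mul T₁ T₂ β c h l) := by
  haveI : FiniteDimensional ℝ W := FiniteDimensional.complexToReal W
  haveI : CompleteSpace W := FiniteDimensional.complete ℝ W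
  haveI : CompleteSpace V := FiniteDimensional.complete ℝ V
  have hV : ∀ (a : ℝ × ℝ) (v : V), NormedSpace.exp (a.1 • T₁ + a.2 • T₂) ((0, v) : W × V) =
      (0, NormedSpace.exp (a.1 • N₁ + a.2 • N₂) v) := by
    intro a v
    refine (exp_inter (A := a.1 • N₁ + a.2 • N₂) (B := a.1 • T₁ + a.2 • T₂)
      (ContinuousLinearMap.inr ℝ W V) (fun x => ?_) v).symm
    simp only [add_apply, smul_apply, ContinuousLinearMap.inr_apply, hN₁, hN₂]
    refine Prod.ext ?_ ?_ <;> simp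
  have hW : ∀ (a : ℝ × ℝ) (u : W × V), (NormedSpace.exp (a.1 • T₁ + a.2 • T₂) u).1 =
      NormedSpace.exp ((a.1 • D₁ + a.2 • D₂).restrictScalars ℝ) u.1 := fun a u => by
    rw [fst_exp (fst_comb h₁ h₂ a), exp_restrict]
  have hB : ∀ (a : ℝ × ℝ) (w w' : W), NormedSpace.exp (a.1 • N₁ + a.2 • N₂) (β w w') =
      β (NormedSpace.exp ((a.1 • D₁ + a.2 • D₂).restrictScalars ℝ) w)
        (NormedSpace.exp ((a.1 • D₁ + a.2 • D₂).restrictScalars ℝ) w') := by
    intro a w w'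
    refine exp_derivation (fun x y => ?_) w w'
    simp only [add_apply, smul_apply, hβ₁, hβ₂, ContinuousLinearMap.coe_restrictScalars',
      map_add, map_smul, smul_add]
    abel
  have hE : ∀ a b : ℝ × ℝ, NormedSpace.exp ((a + b).1 • T₁ + (a + b).2 • T₂) =
      NormedSpace.exp (a.1 • T₁ + a.2 • T₂) * NormedSpace.exp (b.1 • T₁ + b.2 • T₂) :=
    Pool.Agent.N501.Ci.exp_add_pair hT
  refine Prod.ext (add_assoc _ _ _) ?_
  simp only [mul]
  rw [hE]
  set A := NormedSpace.exp (g.1.1 • T₁ + g.1.2 • T₂) with hA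
  set B := NormedSpace.exp (h.1.1 • T₁ + h.1.2 • T₂) with hBd
  set F := NormedSpace.exp ((g.1.1 • D₁ + g.1.2 • D₂).restrictScalars ℝ) with hF
  have hAF : ∀ u : W × V, (A u).1 = F u.1 := hW g.1
  have e3 : ∀ x, (A * B) x = A (B x) := fun x => rfl
  have e4 : A ((0, (1 / 2 : ℝ) • β h.2.1 (B l.2).1 + c h.1 l.1) : W × V) =
      (0, (1 / 2 : ℝ) • β (F h.2.1) (F (B l.2).1) +
        NormedSpace.exp (g.1.1 • N₁ + g.1.2 • N₂) (c h.1 l.1)) := by
    rw [hA, hV, map_add, map_smul, hB]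
  rw [map_add, map_add, e4]
  refine Prod.ext ?_ ?_
  · simp only [Prod.fst_add, e3]
    abel
  · have h5 := hc g.1 h.1 l.1
    simp only [Prod.snd_add, Prod.fst_add, e3, hAF, map_add, add_apply, add_zero,
      smul_add]
    have h6 : c (g.1 + h.1) l.1 = NormedSpace.exp (g.1.1 • N₁ + g.1.2 • N₂) (c h.1 l.1) +
        c g.1 (h.1 + l.1) - c g.1 h.1 := by
      rw [← h5]
      abel
    rw [h6]
    abel

end Pool.Agent.K6.H16.CX.As
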