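import Pool.Agent.K6.H16.CX.Eq

set_option autoImplicit false
set_option linter.style.haveILetI false
set_option linter.unusedSectionVars false
set_option linter.unusedVariables false

/-!
# The coordinates
-/

namespace Pool.Agent.K6.H16.CX.Cd

open Complex Module Pool.Agent.N501.Th Pool.Agent.N501.Du Pool.Agent.N501.Ro Pool.Agent.N501.In
  Pool.Agent.N501.Af Pool.Agent.N501.Co Pool.Agent.K6.H16.CX.Su Pool.Agent.K6.H16.CX.Eq
open scoped ContDiff

variable {W V : Type} [NormedAddCommGroup W] [NormedSpace ℂ W] [FiniteDimensional ℂ W]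
  [NormedAddCommGroup V] [NormedSpace ℝ V] [FiniteDimensional ℝ V] {R : Type} [Fintype R]

/-- **The coordinates.** -/
theorem exists_coords [Nontrivial V] {T₁ T₂ : (W × V) →L[ℝ] (W × V)} (hT : Commute T₁ T₂)
    (d : R → ℕ) (hd : ∀ r, d r ≠ 0) (w : R → ℕ → Du (W × V))
    (hnd : ∀ z, Nd' (ContinuousLinearMap.inr ℝ W V) T₁ T₂ d w z)
    (hdim : finrank ℝ V = 2 * Fintype.card R) {F₁ F₁' F₂ F₂' : W →L[ℂ] W}
    (hF₁ : ∀ u, (NormedSpace.exp T₁ u).1 = F₁ u.1)
    (hF₁' : ∀ u, (NormedSpace.exp (-T₁) u).1 = F₁' u.1)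
    (hF₂ : ∀ u, (NormedSpace.exp T₂ u).1 = F₂ u.1)
    (hF₂' : ∀ u, (NormedSpace.exp (-T₂) u).1 = F₂' u.1)
    {β : W →L[ℝ] W →L[ℝ] V} (hβ : ∀ w, β w w = 0)
    (hβI : ∀ w w', β (I • w) (I • w') = β w w')
    (hβ₁ : ∀ w w', NormedSpace.exp T₁ ((0, β w w') : W × V) = (0, β (F₁ w) (F₁ w')))
    (hβ₂ : ∀ w w', NormedSpace.exp T₂ ((0, β w w') : W × V) = (0, β (F₂ w) (F₂ w')))
    (p q : ℝ × ℝ → W × V) (hp : ContDiff ℝ ∞ p) (hq : ContDiff ℝ ∞ q) (hp0 : ∀ s, (p s).1 = 0)
    (hq0 : ∀ s, (q s).1 = 0) (v : W × V)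
    (hpq : ∀ x y, NormedSpace.exp T₁ (q (x, y)) + p (x, y + 1) =
      v + NormedSpace.exp T₂ (p (x, y)) + q (x + 1, y)) :
    ∃ Φ : (ℝ × ℝ × (W × V)) ≃ (ℂ × (W × (R → ℂ))), ContDiff ℝ ∞ Φ ∧ ContDiff ℝ ∞ Φ.symm ∧
      Gd Φ (fun s => (s.1 + 1, s.2.1, NormedSpace.exp T₁ s.2.2 + p (s.1, s.2.1))) ∧
      Gd Φ (fun s => (s.1 - 1, s.2.1, NormedSpace.exp (-T₁) (s.2.2 - p (s.1 - 1, s.2.1)))) ∧
      Gd Φ (fun s => (s.1, s.2.1 + 1, NormedSpace.exp T₂ s.2.2 + q (s.1, s.2.1))) ∧
      Gd Φ (fun s => (s.1, s.2.1 - 1, NormedSpace.exp (-T₂) (s.2.2 - q (s.1, s.2.1 - 1)))) ∧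
      ∀ μ : W × V, Gd Φ (fun s => (s.1, s.2.1,
        μ + s.2.2 + (0, (1 / 2 : ℝ) • β μ.1 s.2.2.1))) := by
  haveI : FiniteDimensional ℝ W := FiniteDimensional.complexToReal W
  haveI : CompleteSpace (W × V) := FiniteDimensional.complete ℝ (W × V)
  obtain ⟨U, S, hU, hS, hU₁, hU₂⟩ := exists_affine hT p q hp hq v hpq
  -- the rows
  set ρ : ℂ → R → Du (W × V) := fun z r => row T₁ T₂ (d r) (w r) z with hρ
  have hρh : ∀ r, ContDiff ℂ ∞ fun z => ρ z r := fun r =>
    (differentiable_row T₁ T₂ (d r) (w r)).contDiff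
  have hρs : ∀ r, ContDiff ℝ ∞ fun z => ρ z r := fun r => (hρh r).restrict_scalars ℝ
  -- restriction of the rows to the subspace
  let rs : Du (W × V) → Du V := fun f => mk ((un f).comp (ContinuousLinearMap.inr ℝ W V))
  have hrs : ∀ r, ContDiff ℝ ∞ fun z => rs (ρ z r) := fun r => by
    let rsL : Du (W × V) →ₗ[ℂ] Du V :=
      { toFun := rs
        map_add' := fun f g => rfl
        map_smul' := fun c f => rfl }
    have h1 : ContDiff ℂ ∞ rsL.toContinuousLinearMap := ContinuousLinearMap.contDiff _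
    exact (h1.restrict_scalars ℝ).comp (hρs r)
  -- the linear isomorphisms
  have hfin : finrank ℝ V = finrank ℝ (R → ℂ) := by
    rw [hdim, Module.finrank_pi_fintype]
    simp [Complex.finrank_real_complex, mul_comm]
  have hinj : ∀ z, Function.Injective (Lm (fun r => rs (ρ z r))) := by
    intro z
    rw [injective_iff_map_eq_zero]
    intro x hx
    refine hnd z x fun r => ?_
    exact congrFun hx r
  have hex : ∀ z, ∃ e : V ≃L[ℝ] (R → ℂ), (e : V →L[ℝ] (R → ℂ)) = Lm (fun r => rs (ρ z r)) := by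
    intro z
    refine ⟨(LinearEquiv.ofInjectiveOfFinrankEq (Lm (fun r => rs (ρ z r))).toLinearMap (hinj z)
      hfin).toContinuousLinearEquiv, ?_⟩
    ext x r
    rfl
  choose e he using hex
  have he' : ∀ z x r, e z x r = ev ((0, x) : W × V) (ρ z r) := fun z x r => by
    have := congrArg (fun T : V →L[ℝ] (R → ℂ) => T x r) (he z)
    exact this
  -- the translation part
  set K : ℂ × W → R → ℂ := fun s r =>
    (EQ β ((s.2, 0) : W × V) + U (s.1.re, s.1.im)) (ρ s.1 r) with hK
  have hKs : ContDiff ℝ ∞ K := by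
    refine contDiff_pi.2 fun r => ?_
    refine contDiff_apply' (ContDiff.add ?_ (hU.comp ?_)) ((hρs r).comp contDiff_fst)
    · exact (contDiff_EQ β).comp (contDiff_snd.prodMk contDiff_const)
    · exact (Complex.reCLM.contDiff.comp contDiff_fst).prodMk
        (Complex.imCLM.contDiff.comp contDiff_fst)
  have hre : ∀ x y : ℝ, ((x : ℂ) + y * I).re = x := fun x y => by simp
  have him : ∀ x y : ℝ, ((x : ℂ) + y * I).im = y := fun x y => by simp
  set Φ : (ℝ × ℝ × (W × V)) ≃ (ℂ × (W × (R → ℂ))) :=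
    { toFun := fun s => (s.1 + s.2.1 * I, (s.2.2.1,
        e (s.1 + s.2.1 * I) s.2.2.2 + K (s.1 + s.2.1 * I, s.2.2.1)))
      invFun := fun t => (t.1.re, t.1.im, (t.2.1, (e t.1).symm (t.2.2 - K (t.1, t.2.1))))
      left_inv := fun s => by
        obtain ⟨x, y, u, u'⟩ := s
        simp only [hre, him, add_sub_cancel_right, ContinuousLinearEquiv.symm_apply_apply]
      right_inv := fun t => by
        obtain ⟨z, u, u'⟩ := t
        simp only [Complex.re_add_im, ContinuousLinearEquiv.apply_symm_apply, sub_add_cancel] }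
    with hΦ
  have hΦ1 : ∀ x y u, (Φ (x, y, u)).1 = x + y * I := fun x y u => rfl
  have hΦ3 : ∀ x y u, (Φ (x, y, u)).2.1 = u.1 := fun x y u => rfl
  have hΦ2 : ∀ x y u r, (Φ (x, y, u)).2.2 r = (EQ β u + U (x, y)) (ρ (x + y * I) r) := by
    intro x y u r
    change e (x + y * I) u.2 r + K (x + y * I, u.1) r = _
    rw [he', hK]
    simp only [hre, him]
    have h1 : EQ β u = EQ β ((u.1, 0) : W × V) + ev ((0, u.2) : W × V) := by
      rw [← EQ_add_snd β (u.1, 0) (0, u.2) rfl]
      congr 1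
      refine Prod.ext ?_ ?_ <;> simp
    rw [h1, add_apply, add_apply, add_apply]
    ring
  have hpt : ContDiff ℝ ∞ fun s : ℝ × ℝ × (W × V) => ((s.1 : ℂ) + s.2.1 * I) :=
    contDiff_pt.comp (contDiff_fst.prodMk (contDiff_fst.comp contDiff_snd))
  have hcl : ∀ F : W →L[ℂ] W, ContDiff ℂ ∞ fun t : ℂ × (W × (R → ℂ)) => F t.2.1 := fun F =>
    F.contDiff.comp (contDiff_fst.comp contDiff_snd)
  refine ⟨Φ, ?_, ?_, ?_, ?_, ?_, ?_, ?_⟩
  · -- smoothness
    have hw : ContDiff ℝ ∞ fun s : ℝ × ℝ × (W × V) => s.2.2.1 :=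
      contDiff_fst.comp (contDiff_snd.comp contDiff_snd)
    refine hpt.prodMk (hw.prodMk (ContDiff.add ?_ (hKs.comp (hpt.prodMk hw))))
    refine contDiff_pi.2 fun r => ?_
    have h1 : ContDiff ℝ ∞ fun s : ℝ × ℝ × (W × V) =>
        ev ((0, s.2.2.2) : W × V) (ρ ((s.1 : ℂ) + s.2.1 * I) r) :=
      contDiff_apply' (ev.contDiff.comp (contDiff_const.prodMk
        (contDiff_snd.comp (contDiff_snd.comp contDiff_snd)))) ((hρs r).comp hpt)
    simpa only [he'] using h1
  · -- smoothness of the inverse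
    have h1 : ContDiff ℝ ∞ fun z => ContinuousLinearMap.inverse (Lm (fun r => rs (ρ z r))) := by
      rw [contDiff_iff_contDiffAt]
      intro z
      have h2 : ContDiffAt ℝ ∞ ContinuousLinearMap.inverse (Lm (fun r => rs (ρ z r))) := by
        rw [← he z]
        exact contDiffAt_map_inverse (e z)
      exact h2.comp z (contDiff_Lm (f := fun z r => rs (ρ z r)) hrs).contDiffAt
    have h3 : ∀ z, ContinuousLinearMap.inverse (Lm (fun r => rs (ρ z r))) =
        ((e z).symm : (R → ℂ) →L[ℝ] V) := by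
      intro z
      rw [← he z, ContinuousLinearMap.inverse_equiv]
    simp only [h3] at h1
    have h4 : ContDiff ℝ ∞ fun t : ℂ × (W × (R → ℂ)) => t.2.2 - K (t.1, t.2.1) :=
      (contDiff_snd.comp contDiff_snd).sub (hKs.comp (contDiff_fst.prodMk
        (contDiff_fst.comp contDiff_snd)))
    exact (Complex.reCLM.contDiff.comp contDiff_fst).prodMk
      ((Complex.imCLM.contDiff.comp contDiff_fst).prodMk
        ((contDiff_fst.comp contDiff_snd).prodMk ((h1.comp contDiff_fst).clm_apply h4)))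
  · -- the first generator
    refine ⟨fun t => (t.1 + 1, (F₁ t.2.1, t.2.2)), (contDiff_fst.add contDiff_const).prodMk
      ((hcl F₁).prodMk (contDiff_snd.comp contDiff_snd)), ?_⟩
    rintro ⟨x, y, u⟩
    refine Prod.ext ?_ (Prod.ext ?_ (funext fun r => ?_))
    · simp only [hΦ1]
      push_cast
      ring
    · simp only [hΦ3]
      rw [Prod.fst_add, hp0, add_zero, hF₁]
    · simp only [hΦ2]
      have h1 : (((x + 1 : ℝ) : ℂ) + y * I) = (x + y * I) + 1 := by
        push_cast
        ring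
      have h2 : EQ β (NormedSpace.exp T₁ u + p (x, y)) + U (x + 1, y) =
          pr (NormedSpace.exp (st T₁)) (EQ β u + U (x, y)) := by
        rw [EQ_add_snd _ _ _ (hp0 _), map_add, ← hU₁ x y, EQ_exp hF₁ hβ₁]
        abel
      rw [h1, h2, pr_apply]
      congr 1
      exact row_add_one T₁ T₂ (d r) (w r) _
  · -- its inverse
    refine ⟨fun t => (t.1 - 1, (F₁' t.2.1, t.2.2)), (contDiff_fst.sub contDiff_const).prodMk
      ((hcl F₁').prodMk (contDiff_snd.comp contDiff_snd)), ?_⟩
    rintro ⟨x, y, u⟩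
    refine Prod.ext ?_ (Prod.ext ?_ (funext fun r => ?_))
    · simp only [hΦ1]
      push_cast
      ring
    · simp only [hΦ3]
      rw [hF₁', Prod.fst_sub, hp0, sub_zero]
    · simp only [hΦ2]
      have h1 : ((x : ℂ) + y * I) = (((x - 1 : ℝ) : ℂ) + y * I) + 1 := by
        push_cast
        ring
      have h2 : EQ β u + U (x, y) = pr (NormedSpace.exp (st T₁))
          (EQ β (NormedSpace.exp (-T₁) (u - p (x - 1, y))) + U (x - 1, y)) := by
        have h3 := hU₁ (x - 1) y
        rw [sub_add_cancel] at h3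
        have h4 := EQ_add_snd β (u - p (x - 1, y)) (p (x - 1, y)) (hp0 _)
        rw [sub_add_cancel] at h4
        rw [map_add, ← h3, ← EQ_exp hF₁ hβ₁, exp_surj, h4]
        abel
      rw [h2, pr_apply]
      congr 1
      rw [h1]
      exact (row_add_one T₁ T₂ (d r) (w r) _).symm
  · -- the second generator
    refine ⟨fun t => (t.1 + I, (F₂ t.2.1, fun r => Complex.exp (2 * Real.pi * d r -
      4 * Real.pi * I * d r * t.1) * t.2.2 r + S t.1 (ρ (t.1 + I) r))), ?_, ?_⟩
    · refine (contDiff_fst.add contDiff_const).prodMk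
        ((hcl F₂).prodMk (contDiff_pi.2 fun r => ?_))
      refine ContDiff.add (ContDiff.mul ?_ ?_) ?_
      · exact Complex.contDiff_exp.comp (contDiff_const.sub (contDiff_const.mul contDiff_fst))
      · exact (contDiff_apply ℂ ℂ r).comp (contDiff_snd.comp contDiff_snd)
      · exact contDiff_apply_hol (hS.contDiff.comp contDiff_fst)
          ((hρh r).comp (contDiff_fst.add contDiff_const))
    · rintro ⟨x, y, u⟩
      refine Prod.ext ?_ (Prod.ext ?_ (funext fun r => ?_))
      · simp only [hΦ1]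
        push_cast
        ring
      · simp only [hΦ3]
        rw [Prod.fst_add, hq0, add_zero, hF₂]
      · simp only [hΦ2, hΦ1]
        have h1 : ((x : ℂ) + ((y + 1 : ℝ) : ℂ) * I) = (x + y * I) + I := by
          push_cast
          ring
        have h2 : EQ β (NormedSpace.exp T₂ u + q (x, y)) + U (x, y + 1) =
            pr (NormedSpace.exp (st T₂)) (EQ β u + U (x, y)) + S (x + y * I) := by
          rw [EQ_add_snd _ _ _ (hq0 _), map_add, add_assoc, hU₂ x y, EQ_exp hF₂ hβ₂]
          abel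
        rw [h1, h2, add_apply, pr_apply]
        congr 1
        have h3 : NormedSpace.exp (st T₂) (ρ ((x + y * I) + I) r) =
            Complex.exp (2 * Real.pi * d r - 4 * Real.pi * I * d r * (x + y * I)) •
              ρ (x + y * I) r := row_add_I hT (hd r) (w r) _
        rw [h3, map_smul, smul_eq_mul]
  · -- its inverse
    refine ⟨fun t => (t.1 - I, (F₂' t.2.1, fun r => Complex.exp (-(2 * Real.pi * d r -
      4 * Real.pi * I * d r * (t.1 - I))) * (t.2.2 r - S (t.1 - I) (ρ t.1 r)))), ?_, ?_⟩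
    · refine (contDiff_fst.sub contDiff_const).prodMk
        ((hcl F₂').prodMk (contDiff_pi.2 fun r => ?_))
      refine ContDiff.mul ?_ (ContDiff.sub ?_ ?_)
      · exact Complex.contDiff_exp.comp (contDiff_const.sub (contDiff_const.mul
          (contDiff_fst.sub contDiff_const))).neg
      · exact (contDiff_apply ℂ ℂ r).comp (contDiff_snd.comp contDiff_snd)
      · exact contDiff_apply_hol (hS.contDiff.comp (contDiff_fst.sub contDiff_const))
          ((hρh r).comp contDiff_fst)
    · rintro ⟨x, y, u⟩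
      refine Prod.ext ?_ (Prod.ext ?_ (funext fun r => ?_))
      · simp only [hΦ1]
        push_cast
        ring
      · simp only [hΦ3]
        rw [hF₂', Prod.fst_sub, hq0, sub_zero]
      · simp only [hΦ2, hΦ1]
        have h1 : ((x : ℂ) + ((y - 1 : ℝ) : ℂ) * I) = (x + y * I) - I := by
          push_cast
          ring
        set u' := NormedSpace.exp (-T₂) (u - q (x, y - 1)) with hu'
        have h2 : EQ β u + U (x, y) =
            pr (NormedSpace.exp (st T₂)) (EQ β u' + U (x, y - 1)) + S ((x + y * I) - I) := by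
          have h3 := hU₂ x (y - 1)
          rw [sub_add_cancel, h1] at h3
          have h4 := EQ_add_snd β (u - q (x, y - 1)) (q (x, y - 1)) (hq0 _)
          rw [sub_add_cancel] at h4
          rw [map_add, add_assoc, ← h3, ← EQ_exp hF₂ hβ₂, hu', exp_surj, h4]
          abel
        have h4 : NormedSpace.exp (st T₂) (ρ (x + y * I) r) =
            Complex.exp (2 * Real.pi * d r - 4 * Real.pi * I * d r * ((x + y * I) - I)) •
              ρ ((x + y * I) - I) r := by
          have h5 := row_add_I hT (hd r) (w r) ((x + y * I) - I)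
          rw [sub_add_cancel] at h5
          exact h5
        have h6 : (pr (NormedSpace.exp (st T₂)) (EQ β u' + U (x, y - 1)) +
            S ((x + y * I) - I)) (ρ (x + y * I) r) =
            (EQ β u' + U (x, y - 1)) (NormedSpace.exp (st T₂) (ρ (x + y * I) r)) +
              S ((x + y * I) - I) (ρ (x + y * I) r) := rfl
        rw [h1, h2, h6, h4, map_smul, smul_eq_mul, add_sub_cancel_right,
          ← mul_assoc, ← Complex.exp_add, neg_add_cancel, Complex.exp_zero, one_mul]
  · -- the translations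
    intro μ
    refine ⟨fun t => (t.1, (μ.1 + t.2.1, fun r => t.2.2 r +
      (EQ β μ + fm β μ.1 t.2.1) (ρ t.1 r))), ?_, ?_⟩
    · refine contDiff_fst.prodMk ((contDiff_const.add (contDiff_fst.comp contDiff_snd)).prodMk
        (contDiff_pi.2 fun r => ContDiff.add ?_ ?_))
      · exact (contDiff_apply ℂ ℂ r).comp (contDiff_snd.comp contDiff_snd)
      · exact contDiff_apply_hol (contDiff_const.add ((contDiff_fm β μ.1).comp
          (contDiff_fst.comp contDiff_snd))) ((hρh r).comp contDiff_fst)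
    · rintro ⟨x, y, u⟩
      refine Prod.ext rfl (Prod.ext ?_ (funext fun r => ?_))
      · simp only [hΦ3]
        simp
      · simp only [hΦ2, hΦ1, hΦ3]
        rw [EQ_trans hβ hβI]
        simp only [add_apply]
        ring

end Pool.Agent.K6.H16.CX.Cd
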