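import Pool.Agent.K6.H16.CX.Su

set_option autoImplicit false
set_option linter.style.haveILetI false
set_option linter.unusedSectionVars false
set_option linter.unusedVariables false

/-!
# Evaluation with a quadratic term
-/

namespace Pool.Agent.K6.H16.CX.Eq

open Complex Module Pool.Agent.N501.Th Pool.Agent.N501.Du Pool.Agent.N501.Ro Pool.Agent.N501.In
  Pool.Agent.N501.Af Pool.Agent.N501.Co Pool.Agent.K6.H16.CX.Su
open scoped ContDiff

/-- the exponential of a complex linear map and of its real form -/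
theorem exp_restrict {W : Type} [NormedAddCommGroup W] [NormedSpace ℂ W] [CompleteSpace W]
    (D : W →L[ℂ] W) (w : W) :
    NormedSpace.exp (D.restrictScalars ℝ) w = NormedSpace.exp D w := by
  have h1 := NormedSpace.exp_series_hasSum_exp' (𝕂 := ℂ) D
  have h2 := NormedSpace.exp_series_hasSum_exp' (𝕂 := ℝ) (D.restrictScalars ℝ)
  have h3 := (ContinuousLinearMap.apply ℂ W w).hasSum h1
  have h4 := (ContinuousLinearMap.apply ℝ W w).hasSum h2
  refine h4.unique ?_
  refine Eq.subst (motive := fun f => HasSum f _) ?_ h3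
  funext n
  have h5 : ∀ (n : ℕ) (y : W), (D ^ n) y = ((D.restrictScalars ℝ) ^ n) y := by
    intro n
    induction n with
    | zero =>
      intro y
      rfl
    | succ n ih =>
      intro y
      rw [pow_succ, pow_succ]
      change (D ^ n) (D y) = ((D.restrictScalars ℝ) ^ n) (D y)
      rw [ih]
  change ((n.factorial : ℂ)⁻¹ • D ^ n) w = ((n.factorial : ℝ)⁻¹ • (D.restrictScalars ℝ) ^ n) w
  rw [smul_apply, smul_apply, h5, ← Complex.coe_smul]
  push_cast
  rfl

/-- the complex linear part of a real linear map is smooth in the complex sense -/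
theorem contDiff_hol {W B : Type} [NormedAddCommGroup W] [NormedSpace ℂ W] [FiniteDimensional ℂ W]
    [NormedAddCommGroup B] [NormedSpace ℂ B] (A : W →ₗ[ℝ] B) :
    ContDiff ℂ ∞ fun w => A w - I • A (I • w) := by
  let L : W →ₗ[ℂ] B :=
    { toFun := fun w => A w - I • A (I • w)
      map_add' := fun x y => by
        rw [smul_add, map_add, map_add, smul_add]
        abel
      map_smul' := fun c w => by
        have h0 : ∀ x : W, c • x = c.re • x + c.im • (I • x) := fun x => by
          conv_lhs => rw [← Complex.re_add_im c]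
          rw [add_smul, mul_smul, Complex.coe_smul, Complex.coe_smul]
        have hA : ∀ (r : ℝ) (x : W), A (r • x) = (r : ℂ) • A x := fun r x => by
          rw [A.map_smul, Complex.coe_smul]
        have h1 : A (c • w) = (c.re : ℂ) • A w + (c.im : ℂ) • A (I • w) := by
          rw [h0, map_add, hA, hA]
        have h2 : A (I • c • w) = (c.re : ℂ) • A (I • w) - (c.im : ℂ) • A w := by
          rw [show I • c • w = c • I • w from smul_comm I c w, h0 (I • w), map_add, hA, hA,
            smul_smul I I, I_mul_I, neg_one_smul, map_neg, smul_neg, sub_eq_add_neg]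
        rw [h1, h2, RingHom.id_apply]
        have h3 : c = (c.re : ℂ) + (c.im : ℂ) * I := (Complex.re_add_im c).symm
        have h4 : (c : ℂ) • (A w - I • A (I • w)) =
            ((c.re : ℂ) + (c.im : ℂ) * I) • (A w - I • A (I • w)) := by
          rw [← h3]
        rw [h4]
        have h5 : (I : ℂ) * I = -1 := I_mul_I
        match_scalars
        · ring
        · linear_combination ((c.im : ℂ)) * h5 }
  exact (L.toContinuousLinearMap).contDiff

section

variable {W V : Type} [NormedAddCommGroup W] [NormedSpace ℂ W] [FiniteDimensional ℂ W]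
  [NormedAddCommGroup V] [NormedSpace ℝ V] [FiniteDimensional ℝ V]

/-- the quadratic term -/
noncomputable def Qf (β : W →L[ℝ] W →L[ℝ] V) (w : W) : Bd (W × V) :=
  (-(I / 4) : ℂ) • ev ((0, β w (I • w)) : W × V)

/-- evaluation with the quadratic term -/
noncomputable def EQ (β : W →L[ℝ] W →L[ℝ] V) (u : W × V) : Bd (W × V) := ev u + Qf β u.1

theorem contDiff_Qf (β : W →L[ℝ] W →L[ℝ] V) : ContDiff ℝ ∞ (Qf β) := by
  have hI : ContDiff ℝ ∞ fun w : W => (I : ℂ) • w :=
    (((I : ℂ) • ContinuousLinearMap.id ℂ W).restrictScalars ℝ).contDiff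
  have h1 : ContDiff ℝ ∞ fun w : W => β w (I • w) := β.contDiff.clm_apply hI
  have h2 : ContDiff ℝ ∞ fun w : W => ev ((0, β w (I • w)) : W × V) :=
    ev.contDiff.comp (contDiff_const.prodMk h1)
  exact h2.const_smul (-(I / 4) : ℂ)

theorem contDiff_EQ (β : W →L[ℝ] W →L[ℝ] V) : ContDiff ℝ ∞ (EQ β) :=
  ev.contDiff.add ((contDiff_Qf β).comp contDiff_fst)

theorem EQ_add_snd (β : W →L[ℝ] W →L[ℝ] V) (u p : W × V) (hp : p.1 = 0) :
    EQ β (u + p) = EQ β u + ev p := by
  unfold EQ
  rw [map_add, Prod.fst_add, hp, add_zero]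
  abel

/-- equivariance -/
theorem EQ_exp {β : W →L[ℝ] W →L[ℝ] V} {A : (W × V) →L[ℝ] (W × V)} {F : W →L[ℂ] W}
    (hF : ∀ u, (NormedSpace.exp A u).1 = F u.1)
    (hβ : ∀ w w', NormedSpace.exp A ((0, β w w') : W × V) = (0, β (F w) (F w'))) (u : W × V) :
    EQ β (NormedSpace.exp A u) = pr (NormedSpace.exp (st A)) (EQ β u) := by
  have h1 := hβ u.1 (I • u.1)
  rw [F.map_smul] at h1
  unfold EQ Qf
  rw [map_add, (pr (NormedSpace.exp (st A))).map_smul, pr_ev, pr_ev, hF, h1]

/-- the linear part of left translations -/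
noncomputable def fm (β : W →L[ℝ] W →L[ℝ] V) (μ w : W) : Bd (W × V) :=
  (1 / 2 : ℂ) • (ev ((0, β μ w) : W × V) - I • ev ((0, β μ (I • w)) : W × V))

theorem contDiff_fm (β : W →L[ℝ] W →L[ℝ] V) (μ : W) : ContDiff ℂ ∞ (fm β μ) := by
  have h := contDiff_hol (W := W) (B := Bd (W × V))
    (((ev : (W × V) →L[ℝ] _).comp ((ContinuousLinearMap.inr ℝ W V).comp (β μ))).toLinearMap)
  exact h.const_smul (1 / 2 : ℂ)

/-- left translations -/
theorem EQ_trans {β : W →L[ℝ] W →L[ℝ] V} (hβ : ∀ w, β w w = 0)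
    (hβI : ∀ w w', β (I • w) (I • w') = β w w') (μ u : W × V) :
    EQ β (μ + u + (0, (1 / 2 : ℝ) • β μ.1 u.1)) = EQ β u + EQ β μ + fm β μ.1 u.1 := by
  have ha : ∀ x y, β x y = -β y x := fun x y => by
    have h1 := hβ (x + y)
    simp only [map_add, add_apply, hβ, zero_add, add_zero] at h1
    exact eq_neg_of_add_eq_zero_right h1
  have h1 : β u.1 (I • μ.1) = β μ.1 (I • u.1) := by
    have h2 := hβI (I • μ.1) u.1
    rw [smul_smul, I_mul_I, neg_one_smul, map_neg] at h2
    rw [ha, ← h2]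
    simp
  rw [EQ_add_snd _ _ _ rfl]
  unfold EQ Qf fm
  rw [map_add, Prod.fst_add]
  have h3 : β (μ.1 + u.1) (I • (μ.1 + u.1)) = β μ.1 (I • μ.1) + β u.1 (I • u.1) +
      (2 : ℝ) • β μ.1 (I • u.1) := by
    rw [smul_add, map_add, map_add, add_apply, add_apply, h1, two_smul]
    abel
  have h4 : ev ((0, β (μ.1 + u.1) (I • (μ.1 + u.1))) : W × V) =
      ev ((0, β μ.1 (I • μ.1)) : W × V) + ev ((0, β u.1 (I • u.1)) : W × V) +
      (2 : ℝ) • ev ((0, β μ.1 (I • u.1)) : W × V) := by
    rw [h3, ← ev.map_add, ← ev.map_smul, ← ev.map_add]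
    congr 1
    refine Prod.ext ?_ rfl
    simp
  have h5 : ev ((0, (1 / 2 : ℝ) • β μ.1 u.1) : W × V) =
      (1 / 2 : ℝ) • ev ((0, β μ.1 u.1) : W × V) := by
    rw [← ev.map_smul]
    congr 1
    refine Prod.ext ?_ rfl
    simp
  have hc : ∀ (r : ℝ) (T : Bd (W × V)), r • T = (r : ℂ) • T := fun r T => by
    ext ρ
    exact (Complex.coe_smul r (T ρ)).symm
  rw [h4, h5, hc, hc]
  push_cast
  module

end

end Pool.Agent.K6.H16.CX.Eq
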