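import Pool.Agent.K6.H16.CX.Cd
import Pool.Agent.N501.Ci

set_option autoImplicit false
set_option linter.style.haveILetI false
set_option linter.unusedSectionVars false
set_option linter.unusedVariables false

/-!
# The groups
-/

namespace Pool.Agent.K6.H16.CX.Gr

open Complex Module Pool.Agent.N501.Th Pool.Agent.N501.Du Pool.Agent.N501.Ro Pool.Agent.N501.In
  Pool.Agent.N501.Af Pool.Agent.N501.Co Pool.Agent.K6.H16.CX.Su Pool.Agent.K6.H16.CX.Eq
  Pool.Agent.K6.H16.CX.Cd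
open scoped ContDiff

variable {W V : Type} [NormedAddCommGroup W] [NormedSpace ℂ W] [FiniteDimensional ℂ W]
  [NormedAddCommGroup V] [NormedSpace ℝ V] [FiniteDimensional ℝ V]

/-- the product -/
noncomputable def mul (T₁ T₂ : (W × V) →L[ℝ] (W × V)) (β : W →L[ℝ] W →L[ℝ] V)
    (c : ℝ × ℝ → ℝ × ℝ → V) (g h : (ℝ × ℝ) × (W × V)) : (ℝ × ℝ) × (W × V) :=
  (g.1 + h.1, g.2 + NormedSpace.exp (g.1.1 • T₁ + g.1.2 • T₂) h.2 +
    (0, (1 / 2 : ℝ) • β g.2.1 (NormedSpace.exp (g.1.1 • T₁ + g.1.2 • T₂) h.2).1 + c g.1 h.1))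

/-- the cocycle with values in the large space -/
def cP (W : Type) [NormedAddCommGroup W] (c : ℝ × ℝ → ℝ × ℝ → V) (a b : ℝ × ℝ) : W × V :=
  (0, c a b)

/-- the first component of an exponential -/
theorem fst_exp {T : (W × V) →L[ℝ] (W × V)} {D : W →L[ℂ] W} (h : ∀ u, (T u).1 = D u.1)
    (u : W × V) : (NormedSpace.exp T u).1 = NormedSpace.exp D u.1 := by
  haveI : FiniteDimensional ℝ W := FiniteDimensional.complexToReal W
  haveI : CompleteSpace (W × V) := FiniteDimensional.complete ℝ (W × V)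
  haveI : CompleteSpace W := FiniteDimensional.complete ℝ W
  have h1 := exp_inter (A := T) (B := D.restrictScalars ℝ) (ContinuousLinearMap.fst ℝ W V)
    (fun x => h x) u
  rw [exp_restrict] at h1
  exact h1

theorem fst_comb {T₁ T₂ : (W × V) →L[ℝ] (W × V)} {D₁ D₂ : W →L[ℂ] W}
    (h₁ : ∀ u, (T₁ u).1 = D₁ u.1) (h₂ : ∀ u, (T₂ u).1 = D₂ u.1) (a : ℝ × ℝ) (u : W × V) :
    ((a.1 • T₁ + a.2 • T₂) u).1 = (a.1 • D₁ + a.2 • D₂) u.1 := by
  simp only [add_apply, smul_apply, Prod.fst_add, Prod.smul_fst, h₁, h₂]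

section assoc

variable {T₁ T₂ : (W × V) →L[ℝ] (W × V)} {β : W →L[ℝ] W →L[ℝ] V} {c : ℝ × ℝ → ℝ × ℝ → V}
  (hassoc : ∀ g h l : (ℝ × ℝ) × (W × V),
    mul T₁ T₂ β c (mul T₁ T₂ β c g h) l = mul T₁ T₂ β c g (mul T₁ T₂ β c h l))

theorem mul_eq {g : (ℝ × ℝ) × (W × V)} (hg : g.2.1 = 0) (x : (ℝ × ℝ) × (W × V)) :
    mul T₁ T₂ β c g x = Pool.Agent.N501.Ma.mul T₁ T₂ (cP W c) g x := by
  unfold mul Pool.Agent.N501.Ma.mul cP
  rw [hg, map_zero, zero_apply, smul_zero, zero_add]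

include hassoc

theorem cocycle (a b l : ℝ × ℝ) : cP W c a b + cP W c (a + b) l =
    NormedSpace.exp (a.1 • T₁ + a.2 • T₂) (cP W c b l) + cP W c a (b + l) := by
  have h := congrArg Prod.snd (hassoc (a, 0) (b, 0) (l, 0))
  simpa [mul, cP] using h

theorem assoc' (hT : Commute T₁ T₂) (g h l : (ℝ × ℝ) × (W × V)) :
    Pool.Agent.N501.Ma.mul T₁ T₂ (cP W c) (Pool.Agent.N501.Ma.mul T₁ T₂ (cP W c) g h) l =
      Pool.Agent.N501.Ma.mul T₁ T₂ (cP W c) g (Pool.Agent.N501.Ma.mul T₁ T₂ (cP W c) h l) := by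
  haveI : FiniteDimensional ℝ W := FiniteDimensional.complexToReal W
  exact Pool.Agent.N501.Ci.mul_assoc_of_cocycle hT (cocycle hassoc) g h l

theorem equivariant {D₁ D₂ : W →L[ℂ] W} (h₁ : ∀ u, (T₁ u).1 = D₁ u.1)
    (h₂ : ∀ u, (T₂ u).1 = D₂ u.1) (a : ℝ × ℝ) (w w' : W) :
    NormedSpace.exp (a.1 • T₁ + a.2 • T₂) ((0, β w w') : W × V) =
      (0, β (NormedSpace.exp (a.1 • D₁ + a.2 • D₂) w)
        (NormedSpace.exp (a.1 • D₁ + a.2 • D₂) w')) := by
  set E := NormedSpace.exp (a.1 • T₁ + a.2 • T₂) with hE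
  set F := NormedSpace.exp (a.1 • D₁ + a.2 • D₂) with hF
  have hEF : ∀ u, (E u).1 = F u.1 := fst_exp (fst_comb h₁ h₂ a)
  have key : ∀ x x' : W, ((0, (1 / 2 : ℝ) • β (F x) (F x') + c a 0) : W × V) =
      E (0, (1 / 2 : ℝ) • β x x' + c 0 0) := by
    intro x x'
    have h := congrArg Prod.snd (hassoc (a, 0) (0, (x, 0)) (0, (x', 0)))
    simp only [mul, Prod.fst_zero, Prod.snd_zero, zero_smul, add_zero, zero_add,
      NormedSpace.exp_zero, map_zero, zero_apply, smul_zero, one_apply_eq_self,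
      ← hE, hEF, map_add, Prod.fst_add] at h
    have h3 : (E ((x, 0) : W × V)) + (E ((x', 0) : W × V)) + ((0, c a 0) : W × V) +
        ((0, (1 / 2 : ℝ) • β (F x) (F x') + c a 0) : W × V) =
        (E ((x, 0) : W × V)) + (E ((x', 0) : W × V)) + ((0, c a 0) : W × V) +
        E (0, (1 / 2 : ℝ) • β x x' + c 0 0) := by
      refine Eq.trans ?_ (Eq.trans h ?_)
      · abel
      · abel
    exact add_left_cancel h3
  have k1 := key w w'
  have k0 := key 0 0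
  simp only [map_zero, smul_zero, zero_add] at k0
  have e1 : ((0, (1 / 2 : ℝ) • β w w' + c 0 0) : W × V) =
      (1 / 2 : ℝ) • ((0, β w w') : W × V) + (0, c 0 0) := by
    refine Prod.ext ?_ ?_ <;> simp
  have e2 : ((0, (1 / 2 : ℝ) • β (F w) (F w') + c a 0) : W × V) =
      (1 / 2 : ℝ) • ((0, β (F w) (F w')) : W × V) + (0, c a 0) := by
    refine Prod.ext ?_ ?_ <;> simp
  rw [e1, e2, map_add, ← k0, map_smul] at k1
  have k2 := add_right_cancel k1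
  have k3 := congrArg (fun u : W × V => (2 : ℝ) • u) k2
  simp only [smul_smul] at k3
  norm_num at k3
  exact k3.symm

end assoc

/-- the good elements over a lattice -/
theorem good_lattice {P F : Type} [NormedAddCommGroup F] [NormedSpace ℂ F] [Zero P]
    (m : (ℝ × ℝ) × P → (ℝ × ℝ) × P → (ℝ × ℝ) × P)
    (hassoc : ∀ g h l, m (m g h) l = m g (m h l)) (hm1 : ∀ g h, (m g h).1 = g.1 + h.1)
    (htr : ∀ s w w', ∃ y, m (0, y) (s, w) = (s, w'))
    (Φ : (ℝ × ℝ) × P → F) (u₁ u₂ : ℝ × ℝ)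
    (h₁ : Gd Φ (m (u₁, 0))) (h₁' : ∃ w, Gd Φ (m (-u₁, w)))
    (h₂ : Gd Φ (m (u₂, 0))) (h₂' : ∃ w, Gd Φ (m (-u₂, w)))
    (h₀ : ∀ w, Gd Φ (m (0, w))) (a b : ℤ) (w : P) :
    Gd Φ (m (a • u₁ + b • u₂, w)) := by
  have hfib : ∀ (s : ℝ × ℝ) (w : P), Gd Φ (m (s, w)) → ∀ w', Gd Φ (m (s, w')) := by
    intro s w h w'
    obtain ⟨y, hy⟩ := htr s w w'
    have h1 : m (s, w') = m (0, y) ∘ m (s, w) := by
      funext x
      rw [Function.comp_apply, ← hassoc, hy]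
    rw [h1]
    exact (h₀ _).comp h
  have hadd : ∀ s t : ℝ × ℝ, (∀ w, Gd Φ (m (s, w))) →
      (∀ w, Gd Φ (m (t, w))) → ∀ w, Gd Φ (m (s + t, w)) := by
    intro s t hs ht
    have h1 : m (m (s, 0) (t, 0)) = m (s, 0) ∘ m (t, 0) := by
      funext x
      rw [Function.comp_apply, ← hassoc]
    have h2 : Gd Φ (m (m (s, 0) (t, 0))) := by
      rw [h1]
      exact (hs 0).comp (ht 0)
    have h3 : m (s, 0) (t, 0) = (s + t, (m (s, 0) (t, 0)).2) :=
      Prod.ext (hm1 _ _) rfl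
    rw [h3] at h2
    exact hfib (s + t) _ h2
  have hz : ∀ (u : ℝ × ℝ), (∀ w, Gd Φ (m (u, w))) →
      (∀ w, Gd Φ (m (-u, w))) → ∀ (n : ℤ) w, Gd Φ (m (n • u, w)) := by
    intro u hu hu' n
    induction n using Int.induction_on with
    | zero =>
      intro w
      rw [zero_smul]
      exact h₀ w
    | succ n ih =>
      rw [add_smul, one_smul]
      exact hadd _ _ ih hu
    | pred n ih =>
      rw [sub_smul, one_smul, sub_eq_add_neg]
      exact hadd _ _ ih hu'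
  obtain ⟨w₁, hw₁⟩ := h₁'
  obtain ⟨w₂, hw₂⟩ := h₂'
  exact hadd _ _ (hz u₁ (hfib _ _ h₁) (hfib _ _ hw₁) a) (hz u₂ (hfib _ _ h₂) (hfib _ _ hw₂) b) w

/-- the coordinates for a fine lattice -/
theorem coords_fine {m : ℕ} (hm : 2 ≤ m) (hV : finrank ℝ V = 2 * m)
    {T₁ T₂ : (W × V) →L[ℝ] (W × V)} (hT : Commute T₁ T₂) {D₁ D₂ : W →L[ℂ] W}
    (h₁ : ∀ u, (T₁ u).1 = D₁ u.1) (h₂ : ∀ u, (T₂ u).1 = D₂ u.1)
    {β : W →L[ℝ] W →L[ℝ] V} (hβ : ∀ w, β w w = 0)
    (hβI : ∀ w w', β (I • w) (I • w') = β w w') {c : ℝ × ℝ → ℝ × ℝ → V}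
    (hc : ContDiff ℝ ∞ fun p : (ℝ × ℝ) × (ℝ × ℝ) => c p.1 p.2)
    (hassoc : ∀ g h l : (ℝ × ℝ) × (W × V),
      mul T₁ T₂ β c (mul T₁ T₂ β c g h) l = mul T₁ T₂ β c g (mul T₁ T₂ β c h l))
    (M : (ℝ × ℝ) ≃L[ℝ] (ℝ × ℝ)) {d : Fin m → ℕ} {w : Fin m → ℕ → Du (W × V)}
    (hd : ∀ r, d r ≠ 0)
    (hnd : ∀ z, Nd' (ContinuousLinearMap.inr ℝ W V) ((M (1, 0)).1 • T₁ + (M (1, 0)).2 • T₂)
      ((M (0, 1)).1 • T₁ + (M (0, 1)).2 • T₂) d w z) :
    ∃ Φ : ((ℝ × ℝ) × (W × V)) ≃ (ℂ × (W × (Fin m → ℂ))), ContDiff ℝ ∞ Φ ∧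
      ContDiff ℝ ∞ Φ.symm ∧
      ∀ (a b : ℤ) (w : W × V), Gd Φ (mul T₁ T₂ β c (a • M (1, 0) + b • M (0, 1), w)) := by
  haveI : FiniteDimensional ℝ W := FiniteDimensional.complexToReal W
  haveI : Nontrivial V := by
    apply Module.nontrivial_of_finrank_pos (R := ℝ)
    omega
  set T₁' := (M (1, 0)).1 • T₁ + (M (1, 0)).2 • T₂ with hT₁'
  set T₂' := (M (0, 1)).1 • T₁ + (M (0, 1)).2 • T₂ with hT₂'
  have hT' : Commute T₁' T₂' := by
    have h11 := Commute.refl T₁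
    have h22 := Commute.refl T₂
    exact ((((h11.smul_right _).add_right (hT.smul_right _)).smul_left _)).add_left
      ((((hT.symm.smul_right _).add_right (h22.smul_right _)).smul_left _))
  have hassoc' := assoc' hassoc hT
  have hc0 : ∀ s, cP W c 0 s = cP W c 0 0 := Pool.Agent.N501.Ma.cocycle_zero hassoc'
  have hc0' : ∀ s, c 0 s = c 0 0 := fun s => congrArg Prod.snd (hc0 s)
  have hcP : ∀ u : ℝ × ℝ, ContDiff ℝ ∞ fun s : ℝ × ℝ => cP W c u (M s) := fun u =>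
    contDiff_const.prodMk (hc.comp (contDiff_const.prodMk M.contDiff))
  have hneg : ∀ (D : W →L[ℂ] W) (T : (W × V) →L[ℝ] (W × V)), (∀ u, (T u).1 = D u.1) →
      ∀ u, ((-T) u).1 = (-D) u.1 := fun D T h u => by
    rw [neg_apply, neg_apply, Prod.fst_neg, h]
  obtain ⟨Φ, hΦ, hΦ', g₁, g₁', g₂, g₂', g₀⟩ := exists_coords hT' d hd w hnd
    (by rw [hV, Fintype.card_fin])
    (fst_exp (fst_comb h₁ h₂ (M (1, 0)))) (fst_exp (hneg _ _ (fst_comb h₁ h₂ (M (1, 0)))))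
    (fst_exp (fst_comb h₁ h₂ (M (0, 1)))) (fst_exp (hneg _ _ (fst_comb h₁ h₂ (M (0, 1)))))
    hβ hβI (equivariant hassoc h₁ h₂ (M (1, 0))) (equivariant hassoc h₁ h₂ (M (0, 1)))
    (fun s => cP W c (M (1, 0)) (M s)) (fun s => cP W c (M (0, 1)) (M s))
    (hcP _) (hcP _) (fun _ => rfl) (fun _ => rfl)
    (cP W c (M (1, 0)) (M (0, 1)) - cP W c (M (0, 1)) (M (1, 0))) (by
      intro x y
      have e1 := cocycle hassoc (M (1, 0)) (M (0, 1)) (M (x, y))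
      have e2 := cocycle hassoc (M (0, 1)) (M (1, 0)) (M (x, y))
      rw [← map_add, ← map_add] at e1 e2
      have e3 : ((1 : ℝ), (0 : ℝ)) + ((0 : ℝ), (1 : ℝ)) = (1, 1) := by simp
      have e4 : ((0 : ℝ), (1 : ℝ)) + ((1 : ℝ), (0 : ℝ)) = (1, 1) := by simp
      have e5 : ((0 : ℝ), (1 : ℝ)) + (x, y) = (x, y + 1) := by simp [add_comm]
      have e6 : ((1 : ℝ), (0 : ℝ)) + (x, y) = (x + 1, y) := by simp [add_comm]
      rw [e3, e5] at e1
      rw [e4, e6] at e2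
      refine e1.symm.trans ?_
      refine Eq.trans ?_ (add_assoc _ _ _).symm
      refine Eq.trans ?_ (congrArg (fun t => (cP W c (M (1, 0)) (M (0, 1)) -
        cP W c (M (0, 1)) (M (1, 0))) + t) e2)
      abel)
  -- the new coordinates
  let σ : ((ℝ × ℝ) × (W × V)) ≃ (ℝ × ℝ × (W × V)) :=
    { toFun := fun s => ((M.symm s.1).1, (M.symm s.1).2, s.2)
      invFun := fun t => (M (t.1, t.2.1), t.2.2)
      left_inv := fun s => by simp
      right_inv := fun t => by simp }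
  have hσ : ContDiff ℝ ∞ σ :=
    (contDiff_fst.comp (M.symm.contDiff.comp contDiff_fst)).prodMk
      ((contDiff_snd.comp (M.symm.contDiff.comp contDiff_fst)).prodMk contDiff_snd)
  have hσ' : ContDiff ℝ ∞ σ.symm :=
    (M.contDiff.comp (contDiff_fst.prodMk (contDiff_fst.comp contDiff_snd))).prodMk
      (contDiff_snd.comp contDiff_snd)
  have hMM : ∀ s : ℝ × ℝ, M ((M.symm s).1, (M.symm s).2) = s := fun s => M.apply_symm_apply s
  -- transport of good maps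
  have tr : ∀ (g : (ℝ × ℝ) × (W × V) → (ℝ × ℝ) × (W × V))
      (g' : ℝ × ℝ × (W × V) → ℝ × ℝ × (W × V)), Gd Φ g' →
      (∀ s, σ (g s) = g' (σ s)) → Gd (σ.trans Φ) g := by
    rintro g g' ⟨Ψ, h1, h2⟩ h
    refine ⟨Ψ, h1, fun s => ?_⟩
    simp only [Equiv.trans_apply]
    rw [h, h2]
  have hexp : ∀ (s : ℝ × ℝ) (T : (W × V) →L[ℝ] (W × V)), s.1 • T₁ + s.2 • T₂ = T →
      ∀ (w : W × V) (x : (ℝ × ℝ) × (W × V)), w.1 = 0 → mul T₁ T₂ β c (s, w) x =
        (s + x.1, w + NormedSpace.exp T x.2 + cP W c s x.1) := by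
    rintro s _ rfl w x hw
    rw [mul_eq (g := (s, w)) hw]
    rfl
  have hinv : ∀ u : ℝ × ℝ, ∀ x, mul T₁ T₂ β c (-u, -cP W c (-u) u - cP W c 0 0) x =
      (x.1 - u, NormedSpace.exp (-(u.1 • T₁ + u.2 • T₂)) (x.2 - cP W c u (x.1 - u))) := by
    intro u x
    rw [mul_eq (by simp [cP])]
    exact Pool.Agent.N501.Ma.mul_inv_form hassoc' u x
  refine ⟨σ.trans Φ, hΦ.comp hσ, hσ'.comp hΦ', ?_⟩
  refine good_lattice (mul T₁ T₂ β c) hassoc (fun _ _ => rfl) ?_ _ (M (1, 0)) (M (0, 1))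
    ?_ ?_ ?_ ?_ ?_
  · intro s w w'
    refine ⟨w' - w - (0, (1 / 2 : ℝ) • β (w'.1 - w.1) w.1 + c 0 0), ?_⟩
    refine Prod.ext (zero_add _) ?_
    simp only [mul, Prod.fst_zero, Prod.snd_zero, zero_smul, add_zero, NormedSpace.exp_zero,
      one_apply_eq_self, hc0' s, Prod.fst_sub, sub_zero]
    abel
  · refine tr _ _ g₁ fun s => ?_
    rw [hexp _ _ rfl _ _ rfl]
    refine Prod.ext ?_ (Prod.ext ?_ ?_)
    · change (M.symm (M (1, 0) + s.1)).1 = (M.symm s.1).1 + 1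
      rw [map_add, M.symm_apply_apply]
      simp [add_comm]
    · change (M.symm (M (1, 0) + s.1)).2 = (M.symm s.1).2
      rw [map_add, M.symm_apply_apply]
      simp
    · change 0 + NormedSpace.exp T₁' s.2 + cP W c (M (1, 0)) s.1 =
        NormedSpace.exp T₁' s.2 + cP W c (M (1, 0)) (M ((M.symm s.1).1, (M.symm s.1).2))
      rw [hMM, zero_add]
  · refine ⟨-cP W c (-M (1, 0)) (M (1, 0)) - cP W c 0 0, tr _ _ g₁' fun s => ?_⟩
    rw [hinv]
    have e1 : M.symm (s.1 - M (1, 0)) = M.symm s.1 - (1, 0) := by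
      rw [map_sub, M.symm_apply_apply]
    refine Prod.ext ?_ (Prod.ext ?_ ?_)
    · change (M.symm (s.1 - M (1, 0))).1 = (M.symm s.1).1 - 1
      rw [e1]
      simp
    · change (M.symm (s.1 - M (1, 0))).2 = (M.symm s.1).2
      rw [e1]
      simp
    · change NormedSpace.exp (-T₁') (s.2 - cP W c (M (1, 0)) (s.1 - M (1, 0))) =
        NormedSpace.exp (-T₁') (s.2 - cP W c (M (1, 0)) (M ((M.symm s.1).1 - 1,
          (M.symm s.1).2)))
      have e2 : M ((M.symm s.1).1 - 1, (M.symm s.1).2) = s.1 - M (1, 0) := by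
        rw [← M.apply_symm_apply (s.1 - M (1, 0)), e1]
        congr 1
        refine Prod.ext ?_ ?_ <;> simp
      rw [e2]
  · refine tr _ _ g₂ fun s => ?_
    rw [hexp _ _ rfl _ _ rfl]
    refine Prod.ext ?_ (Prod.ext ?_ ?_)
    · change (M.symm (M (0, 1) + s.1)).1 = (M.symm s.1).1
      rw [map_add, M.symm_apply_apply]
      simp
    · change (M.symm (M (0, 1) + s.1)).2 = (M.symm s.1).2 + 1
      rw [map_add, M.symm_apply_apply]
      simp [add_comm]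
    · change 0 + NormedSpace.exp T₂' s.2 + cP W c (M (0, 1)) s.1 =
        NormedSpace.exp T₂' s.2 + cP W c (M (0, 1)) (M ((M.symm s.1).1, (M.symm s.1).2))
      rw [hMM, zero_add]
  · refine ⟨-cP W c (-M (0, 1)) (M (0, 1)) - cP W c 0 0, tr _ _ g₂' fun s => ?_⟩
    rw [hinv]
    have e1 : M.symm (s.1 - M (0, 1)) = M.symm s.1 - (0, 1) := by
      rw [map_sub, M.symm_apply_apply]
    refine Prod.ext ?_ (Prod.ext ?_ ?_)
    · change (M.symm (s.1 - M (0, 1))).1 = (M.symm s.1).1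
      rw [e1]
      simp
    · change (M.symm (s.1 - M (0, 1))).2 = (M.symm s.1).2 - 1
      rw [e1]
      simp
    · change NormedSpace.exp (-T₂') (s.2 - cP W c (M (0, 1)) (s.1 - M (0, 1))) =
        NormedSpace.exp (-T₂') (s.2 - cP W c (M (0, 1)) (M ((M.symm s.1).1,
          (M.symm s.1).2 - 1)))
      have e2 : M ((M.symm s.1).1, (M.symm s.1).2 - 1) = s.1 - M (0, 1) := by
        rw [← M.apply_symm_apply (s.1 - M (0, 1)), e1]
        congr 1
        refine Prod.ext ?_ ?_ <;> simp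
      rw [e2]
  · intro w
    refine tr _ _ (g₀ (w + (0, c 0 0))) fun s => ?_
    refine Prod.ext ?_ (Prod.ext ?_ ?_)
    · change (M.symm (0 + s.1)).1 = (M.symm s.1).1
      rw [zero_add]
    · change (M.symm (0 + s.1)).2 = (M.symm s.1).2
      rw [zero_add]
    · change (mul T₁ T₂ β c (0, w) s).2 =
        w + (0, c 0 0) + s.2 + (0, (1 / 2 : ℝ) • β (w + (0, c 0 0)).1 s.2.1)
      simp only [mul, Prod.fst_zero, Prod.snd_zero, zero_smul, add_zero, NormedSpace.exp_zero,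
        one_apply_eq_self, hc0' s.1, Prod.fst_add]
      refine Prod.ext ?_ ?_
      · simp
      · simp only [Prod.snd_add]
        abel

end Pool.Agent.K6.H16.CX.Gr
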