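import Pool.Agent.K6.H16.CX.Gr

set_option autoImplicit false
set_option linter.style.haveILetI false
set_option linter.unusedSectionVars false
set_option linter.unusedVariables false

/-!
# Coordinates for an arbitrary lattice in the plane
-/

namespace Pool.Agent.K6.H16.CX.La

open Complex Module Pool.Agent.N501.Du Pool.Agent.N501.Co Pool.Agent.K6.H16.CX.Gr
  Pool.Agent.K6.H16.CX.Su
open scoped ContDiff

variable {W V : Type} [NormedAddCommGroup W] [NormedSpace ℂ W] [FiniteDimensional ℂ W]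
  [NormedAddCommGroup V] [NormedSpace ℝ V] [FiniteDimensional ℝ V]

/-- **Coordinates for an arbitrary lattice.** -/
theorem coords {k : ℕ} (hV : 4 ≤ finrank ℝ V)
    (hk : 2 * finrank ℂ W + finrank ℝ V + 2 = 2 * k)
    {T₁ T₂ : (W × V) →L[ℝ] (W × V)} (hT : Commute T₁ T₂) {D₁ D₂ : W →L[ℂ] W}
    (h₁ : ∀ u, (T₁ u).1 = D₁ u.1) (h₂ : ∀ u, (T₂ u).1 = D₂ u.1)
    {β : W →L[ℝ] W →L[ℝ] V} (hβ : ∀ w, β w w = 0)
    (hβI : ∀ w w', β (I • w) (I • w') = β w w') {c : ℝ × ℝ → ℝ × ℝ → V}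
    (hc : ContDiff ℝ ∞ fun p : (ℝ × ℝ) × (ℝ × ℝ) => c p.1 p.2)
    (hassoc : ∀ g h l : (ℝ × ℝ) × (W × V),
      mul T₁ T₂ β c (mul T₁ T₂ β c g h) l = mul T₁ T₂ β c g (mul T₁ T₂ β c h l))
    {u₁ u₂ : ℝ × ℝ} (hu : u₁.1 * u₂.2 - u₁.2 * u₂.1 ≠ 0) :
    ∃ Φ : ((ℝ × ℝ) × (W × V)) ≃ₜ EuclideanSpace ℂ (Fin k), ContDiff ℝ ∞ Φ ∧
      ContDiff ℝ ∞ Φ.symm ∧
      ∀ g : (ℝ × ℝ) × (W × V), (∃ a b : ℤ, g.1 = a • u₁ + b • u₂) →
        ContDiff ℂ ∞ fun z => Φ (mul T₁ T₂ β c g (Φ.symm z)) := by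
  haveI : FiniteDimensional ℝ W := FiniteDimensional.complexToReal W
  obtain ⟨m, hm2⟩ : ∃ m, finrank ℝ V = 2 * m := ⟨k - finrank ℂ W - 1, by omega⟩
  have hm : 2 ≤ m := by omega
  obtain ⟨d, w, hd, ε, hε, hsmall⟩ := exists_rows (W := W) hm hm2
  set A₁ := u₁.1 • T₁ + u₁.2 • T₂ with hA₁
  set A₂ := u₂.1 • T₁ + u₂.2 • T₂ with hA₂
  have hA : Commute A₁ A₂ := by
    have h11 := Commute.refl T₁
    have h22 := Commute.refl T₂
    exact ((((h11.smul_right _).add_right (hT.smul_right _)).smul_left _)).add_left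
      ((((hT.symm.smul_right _).add_right (h22.smul_right _)).smul_left _))
  obtain ⟨K, hK⟩ := exists_nat_gt ((‖A₁‖ + ‖A₂‖) / ε)
  have hK0 : (0 : ℝ) < K := lt_of_le_of_lt (by positivity) hK
  rw [div_lt_iff₀ hε] at hK
  have hKinv : ∀ A : (W × V) →L[ℝ] (W × V), ‖A‖ ≤ ‖A₁‖ + ‖A₂‖ → ‖((K : ℝ)⁻¹) • A‖ < ε := by
    intro A hA
    rw [norm_smul, norm_inv, Real.norm_natCast, inv_mul_lt_iff₀ hK0]
    linarith
  obtain ⟨M, hM1, hM2⟩ := Pool.Agent.N501.Fi.exists_lin (u₁ := (K : ℝ)⁻¹ • u₁)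
    (u₂ := (K : ℝ)⁻¹ • u₂) (by
    simp only [Prod.smul_fst, Prod.smul_snd, smul_eq_mul]
    have h1 : (K : ℝ)⁻¹ * u₁.1 * ((K : ℝ)⁻¹ * u₂.2) - (K : ℝ)⁻¹ * u₁.2 * ((K : ℝ)⁻¹ * u₂.1) =
      (K : ℝ)⁻¹ * (K : ℝ)⁻¹ * (u₁.1 * u₂.2 - u₁.2 * u₂.1) := by ring
    rw [h1]
    have h2 : ((K : ℝ)⁻¹) ≠ 0 := inv_ne_zero hK0.ne'
    exact mul_ne_zero (mul_ne_zero h2 h2) hu)
  have e1 : (M (1, 0)).1 • T₁ + (M (1, 0)).2 • T₂ = (K : ℝ)⁻¹ • A₁ := by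
    rw [hM1, hA₁, smul_add, smul_smul, smul_smul]
    rfl
  have e2 : (M (0, 1)).1 • T₁ + (M (0, 1)).2 • T₂ = (K : ℝ)⁻¹ • A₂ := by
    rw [hM2, hA₂, smul_add, smul_smul, smul_smul]
    rfl
  -- the operators preserve the subspace
  have hres : ∀ (T : (W × V) →L[ℝ] (W × V)) (D : W →L[ℂ] W), (∀ u, (T u).1 = D u.1) →
      ∀ v : V, ((0, ((ContinuousLinearMap.snd ℝ W V).comp
        (T.comp (ContinuousLinearMap.inr ℝ W V))) v) : W × V) = T (0, v) := by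
    intro T D h v
    refine Prod.ext ?_ rfl
    change (0 : W) = (T (0, v)).1
    rw [h]
    simp
  have hAf : ∀ (s : ℝ × ℝ) (r : ℝ) (u : W × V), ((r • (s.1 • T₁ + s.2 • T₂)) u).1 =
      (r • (s.1 • D₁ + s.2 • D₂)) u.1 := by
    intro s r u
    rw [smul_apply, smul_apply, Prod.smul_fst, fst_comb h₁ h₂]
  obtain ⟨Φ, p1, p2, p3⟩ := coords_fine hm hm2 hT h₁ h₂ hβ hβI hc hassoc M hd (w := w) (by
    rw [e1, e2]
    exact hsmall _ _ (hKinv _ (by linarith [norm_nonneg A₂]))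
      (hKinv _ (by linarith [norm_nonneg A₁])) ((hA.smul_left _).smul_right _) _ _
      (hres _ _ (hAf u₁ _)) (hres _ _ (hAf u₂ _)))
  let L : (ℂ × (W × (Fin m → ℂ))) ≃L[ℂ] EuclideanSpace ℂ (Fin k) :=
    ContinuousLinearEquiv.ofFinrankEq (by
      rw [Module.finrank_prod, Module.finrank_prod, Module.finrank_self, Module.finrank_fin_fun,
        finrank_euclideanSpace, Fintype.card_fin]
      omega)
  have hL : ContDiff ℝ ∞ L := (L.contDiff (n := ∞)).restrict_scalars ℝ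
  have hL' : ContDiff ℝ ∞ L.symm := (L.symm.contDiff (n := ∞)).restrict_scalars ℝ
  have h1' : ContDiff ℝ ∞ fun x => L (Φ x) := hL.comp p1
  have h2' : ContDiff ℝ ∞ fun z => Φ.symm (L.symm z) := p2.comp hL'
  let Ψ : ((ℝ × ℝ) × (W × V)) ≃ₜ EuclideanSpace ℂ (Fin k) :=
    { toEquiv := Φ.trans L.toEquiv
      continuous_toFun := h1'.continuous
      continuous_invFun := h2'.continuous }
  refine ⟨Ψ, h1', h2', ?_⟩
  rintro ⟨s, w₀⟩ ⟨a, b, hab⟩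
  simp only at hab
  have hs : s = ((K : ℤ) * a) • M (1, 0) + ((K : ℤ) * b) • M (0, 1) := by
    rw [hM1, hM2, hab]
    have hKK : ∀ (n : ℤ) (u : ℝ × ℝ), ((K : ℤ) * n) • ((K : ℝ)⁻¹ • u) = n • u := by
      intro n u
      rw [← Int.cast_smul_eq_zsmul ℝ, ← Int.cast_smul_eq_zsmul ℝ, smul_smul]
      congr 1
      push_cast
      field_simp
    rw [hKK, hKK]
  obtain ⟨G, hG1, hG2⟩ := p3 ((K : ℤ) * a) ((K : ℤ) * b) w₀
  rw [← hs] at hG2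
  have e3 : (fun z => Ψ (mul T₁ T₂ β c (s, w₀) (Ψ.symm z))) = fun z => L (G (L.symm z)) := by
    funext z
    change L (Φ (mul T₁ T₂ β c (s, w₀) (Φ.symm (L.symm z)))) = _
    rw [hG2, Φ.apply_symm_apply]
  rw [e3]
  exact L.contDiff.comp (hG1.comp L.symm.contDiff)

end Pool.Agent.K6.H16.CX.La
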