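import Pool.Agent.N501.Fi

set_option autoImplicit false
set_option linter.style.haveILetI false
set_option linter.unusedSectionVars false
set_option linter.unusedVariables false

/-!
# Nondegeneracy of twisted rows on an invariant subspace
-/

namespace Pool.Agent.K6.H16.CX.Su

open Complex Module Pool.Agent.N501.Th Pool.Agent.N501.Du Pool.Agent.N501.Ro Pool.Agent.N501.In
  Pool.Agent.N501.Fa

/-- intertwining maps and exponentials -/
theorem exp_inter {E F : Type} [NormedAddCommGroup E] [NormedSpace ℝ E] [CompleteSpace E]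
    [NormedAddCommGroup F] [NormedSpace ℝ F] [CompleteSpace F]
    {A : E →L[ℝ] E} {B : F →L[ℝ] F} (L : E →L[ℝ] F) (h : ∀ x, L (A x) = B (L x)) (x : E) :
    L (NormedSpace.exp A x) = NormedSpace.exp B (L x) := by
  have h1 := NormedSpace.exp_series_hasSum_exp' (𝕂 := ℝ) A
  have h2 := NormedSpace.exp_series_hasSum_exp' (𝕂 := ℝ) B
  have h3 := L.hasSum ((ContinuousLinearMap.apply ℝ E x).hasSum h1)
  have h4 := (ContinuousLinearMap.apply ℝ F (L x)).hasSum h2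
  have h5 : ∀ (n : ℕ) (y : E), L ((A ^ n) y) = (B ^ n) (L y) := by
    intro n
    induction n with
    | zero =>
      intro y
      rfl
    | succ n ih =>
      intro y
      rw [pow_succ, pow_succ]
      change L ((A ^ n) (A y)) = (B ^ n) (B (L y))
      rw [ih, h]
  refine h3.unique ?_
  refine Eq.subst (motive := fun f => HasSum f _) ?_ h4
  funext n
  change ((n.factorial : ℝ)⁻¹ • B ^ n) (L x) = L (((n.factorial : ℝ)⁻¹ • A ^ n) x)
  rw [smul_apply, smul_apply, map_smul, h5]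

variable {V P : Type} [NormedAddCommGroup V] [NormedSpace ℝ V] [NormedAddCommGroup P]
  [NormedSpace ℝ P] {R : Type}

/-- the rows at `z` are nondegenerate on the subspace -/
def Nd' (ι : V →L[ℝ] P) (T₁ T₂ : P →L[ℝ] P) (d : R → ℕ) (w : R → ℕ → Du P) (z : ℂ) : Prop :=
  ∀ v : V, (∀ r, ev (ι v) (row T₁ T₂ (d r) (w r) z) = 0) → v = 0

theorem nd_add_one [CompleteSpace V] [CompleteSpace P] {ι : V →L[ℝ] P} {T₁ T₂ : P →L[ℝ] P}
    {N₁ : V →L[ℝ] V} (h₁ : ∀ v, ι (N₁ v) = T₁ (ι v)) (d : R → ℕ) (w : R → ℕ → Du P) (z : ℂ) :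
    Nd' ι T₁ T₂ d w z ↔ Nd' ι T₁ T₂ d w (z + 1) := by
  have key : ∀ r v, ev (ι v) (row T₁ T₂ (d r) (w r) z) =
      ev (ι (NormedSpace.exp N₁ v)) (row T₁ T₂ (d r) (w r) (z + 1)) := fun r v => by
    rw [exp_inter ι h₁, ← ev_exp_st, row_add_one]
  constructor
  · intro h v hv
    have h1 : NormedSpace.exp (-N₁) v = 0 := h _ fun r => by
      rw [key, exp_surj, hv r]
    exact exp_apply_zero _ _ h1
  · intro h v hv
    refine exp_apply_zero N₁ v (h _ fun r => ?_)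
    rw [← key, hv r]

theorem nd_add_I [CompleteSpace V] [CompleteSpace P] [Nontrivial P] {ι : V →L[ℝ] P}
    {T₁ T₂ : P →L[ℝ] P} (h : Commute T₁ T₂) {N₂ : V →L[ℝ] V} (h₂ : ∀ v, ι (N₂ v) = T₂ (ι v))
    (d : R → ℕ) (hd : ∀ r, d r ≠ 0) (w : R → ℕ → Du P) (z : ℂ) :
    Nd' ι T₁ T₂ d w z ↔ Nd' ι T₁ T₂ d w (z + I) := by
  have key : ∀ r v, Complex.exp (2 * Real.pi * d r - 4 * Real.pi * I * d r * z) *
      ev (ι v) (row T₁ T₂ (d r) (w r) z) =
      ev (ι (NormedSpace.exp N₂ v)) (row T₁ T₂ (d r) (w r) (z + I)) := fun r v => by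
    rw [exp_inter ι h₂, ← ev_exp_st, row_add_I h (hd r), map_smul, smul_eq_mul]
  constructor
  · intro h v hv
    have h1 : NormedSpace.exp (-N₂) v = 0 := h _ fun r => by
      have h2 := key r (NormedSpace.exp (-N₂) v)
      rw [exp_surj, hv r] at h2
      exact (mul_eq_zero.1 h2).resolve_left (Complex.exp_ne_zero _)
    exact exp_apply_zero _ _ h1
  · intro h v hv
    refine exp_apply_zero N₂ v (h _ fun r => ?_)
    rw [← key, hv r, mul_zero]

/-- **Nondegeneracy for small operators** -/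
theorem small [FiniteDimensional ℝ V] [FiniteDimensional ℝ P] [Nontrivial P] [Fintype R]
    (ι : V →L[ℝ] P) (d : R → ℕ) (hd : ∀ r, d r ≠ 0) (w : R → ℕ → Du P)
    (hnd : ∀ s₀ s₁ : ℂ, (s₀ ≠ 0 ∨ s₁ ≠ 0) → ∀ v : V, (∀ r, ev (ι v)
      (∑ i ∈ Finset.range (d r + 1), (s₀ ^ i * s₁ ^ (d r - i)) • w r i) = 0) → v = 0) :
    ∃ ε > 0, ∀ T₁ T₂ : P →L[ℝ] P, ‖T₁‖ < ε → ‖T₂‖ < ε → Commute T₁ T₂ →
      ∀ N₁ N₂ : V →L[ℝ] V, (∀ v, ι (N₁ v) = T₁ (ι v)) → (∀ v, ι (N₂ v) = T₂ (ι v)) →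
      ∀ z, Nd' ι T₁ T₂ d w z := by
  haveI : ProperSpace V := FiniteDimensional.proper_real V
  haveI : CompleteSpace P := FiniteDimensional.complete ℝ P
  set O : Set (((P →L[ℝ] P) × (P →L[ℝ] P)) × (ℂ × V)) :=
    {p | ∃ r, ev (ι p.2.2) (row p.1.1 p.1.2 (d r) (w r) p.2.1) ≠ 0} with hO
  have hOo : IsOpen O := by
    have : O = ⋃ r, {p | ev (ι p.2.2) (row p.1.1 p.1.2 (d r) (w r) p.2.1) ≠ 0} := by
      ext p
      simp [hO]
    rw [this]
    refine isOpen_iUnion fun r => ?_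
    have h1 : Continuous fun p : ((P →L[ℝ] P) × (P →L[ℝ] P)) × (ℂ × V) =>
        row p.1.1 p.1.2 (d r) (w r) p.2.1 :=
      (continuous_row (d r) (w r)).comp
        (continuous_fst.prodMk (continuous_fst.comp continuous_snd))
    have h2 : Continuous fun p : ((P →L[ℝ] P) × (P →L[ℝ] P)) × (ℂ × V) => ev (ι p.2.2) :=
      ev.continuous.comp (ι.continuous.comp (continuous_snd.comp continuous_snd))
    exact isOpen_ne_fun (h2.clm_apply h1) continuous_const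
  have hK : IsCompact ((Metric.closedBall (0 : ℂ) 2) ×ˢ (Metric.sphere (0 : V) 1)) :=
    (isCompact_closedBall 0 2).prod (isCompact_sphere 0 1)
  have hsub : ({(0, 0)} : Set ((P →L[ℝ] P) × (P →L[ℝ] P))) ×ˢ
      ((Metric.closedBall (0 : ℂ) 2) ×ˢ (Metric.sphere (0 : V) 1)) ⊆ O := by
    rintro ⟨p, z, v⟩ ⟨hp, hz, hv⟩
    rw [Set.mem_singleton_iff] at hp
    simp only at hp
    subst hp
    by_contra hcon
    simp only [hO, Set.mem_setOf_eq, not_exists, not_not] at hcon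
    have h1 : v = 0 := by
      refine hnd (theta 0 z) (theta 1 z) (theta_ne_zero z) v fun r => ?_
      rw [← row_zero]
      exact hcon r
    rw [h1] at hv
    simp at hv
  obtain ⟨U, W, hU, hW, hU0, hWK, hUW⟩ := generalized_tube_lemma isCompact_singleton hK hOo hsub
  have hU0' : ((0, 0) : (P →L[ℝ] P) × (P →L[ℝ] P)) ∈ U := hU0 (Set.mem_singleton _)
  obtain ⟨ε, hε, hεU⟩ := Metric.isOpen_iff.1 hU _ hU0'
  refine ⟨ε, hε, fun T₁ T₂ h₁ h₂ hc N₁ N₂ hN₁ hN₂ => ?_⟩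
  have hN : (T₁, T₂) ∈ U := hεU (by
    rw [Metric.mem_ball, dist_eq_norm]
    change ‖(T₁ - 0, T₂ - 0)‖ < ε
    rw [sub_zero, sub_zero]
    exact max_lt h₁ h₂)
  have hball : ∀ z ∈ Metric.closedBall (0 : ℂ) 2, Nd' ι T₁ T₂ d w z := by
    intro z hz v hv
    by_contra hv0
    have hn : ‖v‖ ≠ 0 := norm_ne_zero_iff.2 hv0
    have h1 : ((T₁, T₂), (z, ‖v‖⁻¹ • v)) ∈ O := by
      refine hUW ⟨hN, hWK ⟨hz, ?_⟩⟩
      rw [mem_sphere_zero_iff_norm, norm_smul, norm_inv, norm_norm, inv_mul_cancel₀ hn]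
    obtain ⟨r, hr⟩ := h1
    apply hr
    simp only
    rw [map_smul, map_smul, smul_apply, hv r, smul_zero]
  intro z
  have h1 := int_shift (Q := Nd' ι T₁ T₂ d w) (nd_add_one hN₁ d w) ⌊z.re⌋
  have h2 := int_shift (Q := Nd' ι T₁ T₂ d w) (nd_add_I hc hN₂ d hd w) ⌊z.im⌋
  set z₀ : ℂ := ⟨Int.fract z.re, Int.fract z.im⟩ with hz₀
  have h3 : z = z₀ + ⌊z.re⌋ * 1 + ⌊z.im⌋ * I := by
    apply Complex.ext
    · simp [hz₀]
    · simp [hz₀]
  rw [h3, ← h2, ← h1]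
  refine hball _ ?_
  rw [mem_closedBall_zero_iff]
  refine (Complex.norm_le_abs_re_add_abs_im _).trans ?_
  rw [hz₀]
  simp only
  rw [abs_of_nonneg (Int.fract_nonneg _), abs_of_nonneg (Int.fract_nonneg _)]
  linarith [(Int.fract_lt_one z.re), (Int.fract_lt_one z.im)]

/-- **All small commuting pairs of operators which preserve the subspace have rows which are
nondegenerate on the subspace.** -/
theorem exists_rows {W : Type} [NormedAddCommGroup W] [NormedSpace ℝ W] [FiniteDimensional ℝ W]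
    [FiniteDimensional ℝ V] {m : ℕ} (hm : 2 ≤ m) (hV : finrank ℝ V = 2 * m) :
    ∃ (d : Fin m → ℕ) (w : Fin m → ℕ → Du (W × V)), (∀ r, d r ≠ 0) ∧ ∃ ε > 0,
      ∀ T₁ T₂ : (W × V) →L[ℝ] (W × V), ‖T₁‖ < ε → ‖T₂‖ < ε → Commute T₁ T₂ →
      ∀ N₁ N₂ : V →L[ℝ] V, (∀ v, ((0, N₁ v) : W × V) = T₁ (0, v)) →
        (∀ v, ((0, N₂ v) : W × V) = T₂ (0, v)) →
      ∀ z, Nd' (ContinuousLinearMap.inr ℝ W V) T₁ T₂ d w z := by
  have hfin : finrank ℝ V = finrank ℝ (Fin m → ℂ) := by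
    rw [hV, Module.finrank_pi_fintype]
    simp [Complex.finrank_real_complex, mul_comm]
  haveI : Nontrivial V := by
    apply Module.nontrivial_of_finrank_pos (R := ℝ)
    omega
  set e : V ≃L[ℝ] (Fin m → ℂ) := ContinuousLinearEquiv.ofFinrankEq hfin
  refine ⟨dg m, fun r i => mk ((un (wt e r i)).comp (ContinuousLinearMap.snd ℝ W V)),
    dg_ne_zero hm, small (ContinuousLinearMap.inr ℝ W V) (dg m) (dg_ne_zero hm) _
    fun s₀ s₁ hs v h => nondeg hm e s₀ s₁ hs v fun r => ?_⟩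
  have h1 := h r
  rw [map_sum] at h1 ⊢
  rw [← h1]
  refine Finset.sum_congr rfl fun i _ => ?_
  rw [map_smul, map_smul]
  rfl

end Pool.Agent.K6.H16.CX.Su
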